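import Pool.Agent.P8H60.NR.Gap2

/-!
# MP_21f43f_nt: almost no run of normalised gaps satisfies a linear recurrence

Unconditionally: for all but `η N` of the `n ≤ N`, in every run `δ_n, δ_{n+1}, …, δ_{n+L+d}` of
normalised gaps between zeta zeros, `L₀ ≤ L ≤ N`, every linear recurrence of order at most `d`, with
real coefficients which may depend on the run, fails by more than `c` at a proportion `≥ c` of the
places; the same for every inhomogeneous linear recurrence whose right-hand side itself satisfies a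
linear recurrence of order at most `d` (for example constants, polynomials and exponential sums).
-/

set_option autoImplicit false

namespace Pool.Agent.Results.MP_21f43f_nt.NoRecurrentRuns

/-- multiplicity of `s` as a zero of the Riemann zeta function (order of vanishing at `s`) -/
noncomputable def zmult (s : ℂ) : ℕ := analyticOrderNatAt riemannZeta s

/-- the number of nontrivial zeros of `ζ` with ordinate in `(0, t]`, with multiplicity -/
noncomputable def NZ (t : ℝ) : ℕ :=
  ∑ᶠ s ∈ {s : ℂ | riemannZeta s = 0 ∧ 0 < s.re ∧ s.re < 1 ∧ 0 < s.im ∧ s.im ≤ t}, zmult s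

/-- for `n ≥ 1`: the `n`-th positive ordinate `γ n` of a nontrivial zero of `ζ`, the ordinates being
listed in nondecreasing order and repeated according to multiplicity -/
noncomputable def γ (n : ℕ) : ℝ := sInf {t : ℝ | n ≤ NZ t}

/-- the normalised gaps `δ_n = (γ_{n+1} log γ_{n+1} - γ_n log γ_n) / 2π` -/
noncomputable def δ (n : ℕ) : ℝ :=
  (γ (n + 1) * Real.log (γ (n + 1)) - γ n * Real.log (γ n)) / (2 * Real.pi)

/-- **Theorem** (no hypothesis).  For all `d` and `η > 0` there are `c > 0`, `L₀` and `N₀` such that for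
all `N ≥ N₀` at most `η N` of the indices `n ≤ N` are exceptional, where `n` is exceptional if there are
an `L` with `L₀ ≤ L ≤ N`, real `a_0, …, a_d`, at least one of them of absolute value `≥ 1`, real
`b_0, …, b_d`, not all zero, and a real sequence `u` with `b_0 u_j + ⋯ + b_d u_{j+d} = 0` for all
`0 ≤ j ≤ L - d`, such that `|a_0 δ_{n+j} + ⋯ + a_d δ_{n+j+d} - u_j| > c` for fewer than `c L` of the
places `0 ≤ j ≤ L`. -/
theorem result (d : ℕ) (η : ℝ) (hη : 0 < η) : ∃ c : ℝ, 0 < c ∧ ∃ L₀ N₀ : ℕ, ∀ N : ℕ, N₀ ≤ N →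
    ({n : ℕ | 1 ≤ n ∧ n ≤ N ∧ ∃ L : ℕ, L₀ ≤ L ∧ L ≤ N ∧ ∃ a b : Fin (d + 1) → ℝ,
      (∃ l, 1 ≤ |a l|) ∧ b ≠ 0 ∧ ∃ u : ℕ → ℝ,
      (∀ j, j + d ≤ L → ∑ l : Fin (d + 1), b l * u (j + l) = 0) ∧
      ({j : ℕ | j ≤ L ∧ c <
        |∑ l : Fin (d + 1), a l * δ (n + j + l) - u j|}.ncard : ℝ) < c * L}.ncard : ℝ) ≤ η * N :=
  Pool.Agent.P8H60.NR.dens_gap d hη

end Pool.Agent.Results.MP_21f43f_nt.NoRecurrentRuns
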